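import Mathlib
import Pool.Agent.Lib.MP_f2f7de_al.Final

set_option autoImplicit false

universe u

namespace Pool.Agent.Results.MP_f2f7de_al.FiniteRigid

open Pool.Agent.Lib.MP_f2f7de_al

/-- **Q1 (positive answer).** For every `N ≥ 2` there is a finite set of geodesic currents on
`F_N` that is spectrally rigid: two points of `cv_N` having the same intersection numbers with
all the currents of the set are equal. -/
theorem result (N : ℕ) (hN : 2 ≤ N) :
    ∃ S : Set (Curr N), S.Finite ∧ SpectrallyRigid.{u} S :=
  exists_finite_rigid hN

end Pool.Agent.Results.MP_f2f7de_al.FiniteRigid
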